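import Pool.Agent.Q68.XF.EXPI
import Pool.Agent.Q68.XF.COS
import Pool.Agent.Q68.XF.FUB
import Pool.Agent.Q68.XF.VC
import Pool.Agent.Q38.XF.DECM
import Pool.Agent.Q184.XF.ARE
import Pool.Agent.Q149.XF.INJ
import Pool.Agent.Q149.XF.BALL
import Pool.Agent.Q261.XF.NXT
import Pool.Agent.Q137.XF.CELL
import Pool.Agent.Q137.XF.ORB
import Pool.Agent.Q124.XF.SUM
import Pool.Agent.Q124.XF.IND
import Pool.Agent.Q124.XF.PAR
import Pool.Agent.Q208.XF.SH
import Pool.Agent.Q208.XF.FIX
import Pool.Agent.Q238.XF.CRIT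
import Pool.Agent.Q238.XF.INT
import Pool.Agent.Q238.XF.NEG
import Pool.Agent.Q96.XF.Blk
import Pool.Agent.Q96.XF.Bas
import Pool.Agent.Q96.XF.Inv
import Pool.Agent.Q222.XF.KOE
import Pool.Agent.Q222.XF.REAL
import Pool.Agent.Q222.XF.BR
import Pool.Agent.Q222.XF.UNI
import Pool.Agent.Q222.XF.DEN
import Pool.Agent.Q53.XF.EXPN
import Pool.Agent.Q53.XF.GOOD
import Pool.Agent.Q224.XF.UNIQ
import Pool.Agent.Q224.XF.FAT
import Pool.Agent.Q224.XF.LF
import Pool.Agent.Q224.XF.FIN
import Pool.Agent.Q241.XF.NEAR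

/-!
# Line fields, hyperbolicity and periods in the exponential family `e ^ z + c`

The singular value of `f(z) = e ^ z + c` is `c`. We show that the parameters for which `f` is not
hyperbolic, in particular all parameters for which `f` has an invariant line field supported on its
Julia set, have finite area modulus `2 π i`, that their area decays like `x e ^ (-x)` as the real
part `x` of `c` grows, and that the periods of the attracting cycles obey a geometric law: the
parameters of period `q ≥ 2` have proportion `2 ^ (1 - q)` up to an error `O(x e ^ (-x))`.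

Idea of the proof. In a box of real part `x` the second point of the orbit of `c` is equidistributed
at scale `e ^ x` over a disc of radius `e ^ x`; if it falls far into the left half plane, a small
disc around `c` is mapped into itself. Otherwise (probability one half) its real part is larger than
`2 x`, and one starts again, with the parameter as a slowly varying holomorphic function of the
position; lower bounds for all such functions at once are passed from step to step. The area of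
the Julia set is zero by a density argument with inverse branches and Koebe distortion.
-/

set_option autoImplicit false

open Filter Topology Metric Set MeasureTheory

namespace Pool.Agent.Results.MP_70a088_an.ExponentialFamily

/-- the exponential map `z ↦ e ^ z + c` -/
noncomputable def E (c z : ℂ) : ℂ := Complex.exp z + c

/-- `w` is a point of exact period `q` of `f` with multiplier of modulus less than one -/
def AttrPt (f : ℂ → ℂ) (q : ℕ) (w : ℂ) : Prop :=
  0 < q ∧ Function.minimalPeriod f w = q ∧ ‖deriv (f^[q]) w‖ < 1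

/-- the orbit of `z` converges to the cycle of `w` (a point of period `q`) -/
def Conv (f : ℂ → ℂ) (q : ℕ) (w z : ℂ) : Prop :=
  ∃ j : ℕ, Tendsto (fun k : ℕ => f^[q * k + j] z) atTop (𝓝 w)

/-- `e ^ z + c` has an attracting cycle of exact period `q` to which the orbit of the singular
value `c` and the orbits of almost all points converge -/
def Good (q : ℕ) (c : ℂ) : Prop :=
  ∃ w, AttrPt (E c) q w ∧ Conv (E c) q w c ∧ ∀ᵐ z, Conv (E c) q w z

/-- chordal distance (up to the factor two) -/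
noncomputable def chord (z w : ℂ) : ℝ :=
  ‖z - w‖ / (Real.sqrt (1 + ‖z‖ ^ 2) * Real.sqrt (1 + ‖w‖ ^ 2))

/-- Fatou set: the points with a neighbourhood on which the iterates are equicontinuous for the
chordal distance -/
def fatou (f : ℂ → ℂ) : Set ℂ :=
  {z | ∃ U : Set ℂ, IsOpen U ∧ z ∈ U ∧ ∀ u ∈ U, ∀ ε : ℝ, 0 < ε → ∃ δ : ℝ, 0 < δ ∧
    ∀ v, dist v u < δ → ∀ n : ℕ, chord (f^[n] v) (f^[n] u) < ε}

/-- Julia set -/
def julia (f : ℂ → ℂ) : Set ℂ := (fatou f)ᶜ

/-- `μ` is an invariant line field of `f` supported on the Julia set; it has absolute value one on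
the set `S` of positive measure, and vanishes off `S` -/
structure LineField (f : ℂ → ℂ) (μ : ℂ → ℂ) (S : Set ℂ) : Prop where
  meas : Measurable μ
  one : ∀ z ∈ S, ‖μ z‖ = 1
  off : ∀ z, z ∉ S → μ z = 0
  pos : 0 < volume S
  sub : S ⊆ julia f
  inv : ∀ᵐ z : ℂ, μ (f z) * (starRingEnd ℂ (deriv f z) / deriv f z) = μ z

/-- the box `[x, x + 1] × [y, y + 2π]` with corner `p = x + i y` -/
def box (p : ℂ) : Set ℂ :=
  {u | p.re ≤ u.re ∧ u.re ≤ p.re + 1 ∧ p.im ≤ u.im ∧ u.im ≤ p.im + 2 * Real.pi}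

/-- **Theorem.** (1) For `x ≥ 200` the parameters of the box `[x, x+1] × [y, y+2π]` which are not good have
area at most `88 x e ^ (-x)`. (2) For every `q ≥ 2` the area of the good parameters of period `q` in this
box differs from `2π / 2 ^ (q-1)` by at most `176 x e ^ (-x)`. (3) In every horizontal strip of height `2π`
the parameters which are not good have area at most `1300`. (4) Every parameter `c` of real part
`x ≥ 201` has a good parameter within distance `150 x e ^ (-x)`. (5) If `c` is good, the Julia set of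
`e ^ z + c` has area zero, and supports no invariant line field. -/
theorem result :
    (∀ p : ℂ, 200 ≤ p.re → volume {c | c ∈ box p ∧ ¬ ∃ q, Good q c} ≤
      ENNReal.ofReal (88 * p.re * Real.exp (-p.re))) ∧
    (∀ p : ℂ, 200 ≤ p.re → ∀ q : ℕ, 2 ≤ q →
      |volume.real {c | c ∈ box p ∧ Good q c} - 2 * Real.pi / 2 ^ (q - 1)| ≤
        176 * p.re * Real.exp (-p.re)) ∧
    (∀ y : ℝ, volume {c : ℂ | y ≤ c.im ∧ c.im ≤ y + 2 * Real.pi ∧ ¬ ∃ q, Good q c} ≤
      ENNReal.ofReal 1300) ∧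
    (∀ c : ℂ, 201 ≤ c.re → ∃ c' : ℂ, dist c' c ≤ 150 * c.re * Real.exp (-c.re) ∧
      ∃ q, Good q c') ∧
    (∀ (q : ℕ) (c : ℂ), Good q c → volume (julia (E c)) = 0 ∧
      ¬ ∃ (μ : ℂ → ℂ) (S : Set ℂ), LineField (E c) μ S) := by
  have hINJ := Pool.Agent.Q149.XF.t_INJ Pool.Agent.Q68.XF.t_EXPI
  have hARE := Pool.Agent.Q184.XF.t_ARE Pool.Agent.Q68.XF.t_COS Pool.Agent.Q68.XF.t_FUB
    Pool.Agent.Q38.XF.t_DECM
  have hNXT := Pool.Agent.Q261.XF.t_NXT hINJ
  have hCELL := Pool.Agent.Q137.XF.t_CELL hINJ hNXT Pool.Agent.Q68.XF.t_VC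
    Pool.Agent.Q38.XF.t_DECM
  have hSUM := Pool.Agent.Q124.XF.t_SUM (Pool.Agent.Q149.XF.t_BALL hINJ) hCELL
    Pool.Agent.Q68.XF.t_VC hARE Pool.Agent.Q38.XF.t_DECM hINJ
  have hIND := Pool.Agent.Q124.XF.t_IND hSUM hARE Pool.Agent.Q38.XF.t_DECM
  have hPAR := Pool.Agent.Q124.XF.t_PAR hIND Pool.Agent.Q68.XF.t_VC Pool.Agent.Q38.XF.t_DECM
  have hORB := Pool.Agent.Q137.XF.t_ORB
  have hSH := Pool.Agent.Q208.XF.t_SH hORB
  have hCRIT := Pool.Agent.Q238.XF.t_CRIT hORB hSH Pool.Agent.Q208.XF.t_FIX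
  have hBLK := Pool.Agent.Q96.XF.blk hORB hSH
  have hBAS := Pool.Agent.Q96.XF.bas
  have hBR := Pool.Agent.Q222.XF.t_BR Pool.Agent.Q96.XF.inv Pool.Agent.Q222.XF.t_KOE
  have hEXPN := Pool.Agent.Q53.XF.t_EXPN
  have hINT := Pool.Agent.Q238.XF.t_INT Pool.Agent.Q222.XF.t_REAL hEXPN hBR
  have hUNI := Pool.Agent.Q222.XF.t_UNI Pool.Agent.Q222.XF.t_REAL hINT
  have hDEN := Pool.Agent.Q222.XF.t_DEN hEXPN hBR hUNI
  have hGOOD := Pool.Agent.Q53.XF.t_GOOD hCRIT hBLK hBAS hDEN
  have hNEG := Pool.Agent.Q238.XF.t_NEG hBAS hDEN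
  have hFIN := Pool.Agent.Q224.XF.t_FIN hPAR hGOOD hNEG Pool.Agent.Q224.XF.t_UNIQ
    Pool.Agent.Q68.XF.t_VC
  have hNEAR := Pool.Agent.Q241.XF.t_NEAR Pool.Agent.Q68.XF.t_EXPI hGOOD
  have hLF := Pool.Agent.Q224.XF.t_LF (Pool.Agent.Q224.XF.t_FAT hBAS)
  refine ⟨hFIN.1, hFIN.2.1, hFIN.2.2.1, hNEAR, fun q c h => ?_⟩
  obtain ⟨h1, h2⟩ := hLF q c h
  refine ⟨h1, fun ⟨μ, S, h3⟩ => h2 ⟨μ, S, ⟨h3.meas, h3.one, h3.off, h3.pos, h3.sub, h3.inv⟩⟩⟩

end Pool.Agent.Results.MP_70a088_an.ExponentialFamily
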