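import Mathlib
import Pool.Agent.Q79.HJc

/-!
# Hausdorff contents and dimensions of the Julia sets in the families `a z ^ n R(z)`

Let `R` be a fixed nonconstant rational function, `R(0) ≠ 0, ∞`. In the logarithmic coordinate the
Julia set of `f = a z ^ n R(z)` has `1`-dimensional Hausdorff content at least `2 π`, for every
`a ≠ 0` (it meets every ray). On the other hand, for `α > 1`, all large `n` and all `a` with
`exp (-L n) ≤ |a| ≤ exp (L n)`, the `α`-dimensional content of the Julia set together with all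
points whose orbits tend neither to `0` nor to `∞` is at most `C n ^ (-2 α)`, and this rate is
attained. All points of this set outside a set of dimension at most `α` come back infinitely often
to the `κ / n ^ 2`-neighbourhood of the free critical points; in particular almost every point of
the support of an invariant line field does.
-/

set_option autoImplicit false

open Set Filter Topology MeasureTheory Polynomial Metric
open scoped ENNReal

namespace Pool.Agent.Results.MP_70a088_an.JuliaContents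

/-- The rational function `P / Q` of the plane. -/
noncomputable def map (P Q : ℂ[X]) : ℂ → ℂ := fun z => P.eval z / Q.eval z

/-- `f` is the rational map `P / Q` of the Riemann sphere, in lowest terms. -/
def IsRationalMap (P Q : ℂ[X]) (f : OnePoint ℂ → OnePoint ℂ) : Prop :=
  IsCoprime P Q ∧ Q ≠ 0 ∧ Continuous f ∧
    ∀ z : ℂ, Q.eval z ≠ 0 → f (OnePoint.some z) = OnePoint.some (P.eval z / Q.eval z)

/-- The Fatou set: the points with a neighbourhood on which the iterates are equicontinuous (the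
neighbourhoods `W` of the diagonal are the entourages of the uniform structure of the sphere). -/
def fatou (f : OnePoint ℂ → OnePoint ℂ) : Set (OnePoint ℂ) :=
  {x | ∃ U ∈ 𝓝 x, ∀ y ∈ U, ∀ W ∈ 𝓝ˢ (Set.diagonal (OnePoint ℂ)),
    ∀ᶠ z in 𝓝 y, ∀ n : ℕ, (f^[n] y, f^[n] z) ∈ W}

/-- The finite points of the Julia set. -/
def julia (f : OnePoint ℂ → OnePoint ℂ) : Set ℂ := {z : ℂ | OnePoint.some z ∉ fatou f}

/-- The finite points whose orbits converge neither to `0` nor to `∞`. -/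
def outside (f : OnePoint ℂ → OnePoint ℂ) : Set ℂ :=
  {z : ℂ | ¬ Tendsto (fun n : ℕ => f^[n] (OnePoint.some z)) atTop (𝓝 (OnePoint.some 0)) ∧
    ¬ Tendsto (fun n : ℕ => f^[n] (OnePoint.some z)) atTop (𝓝 OnePoint.infty)}

/-- `μ` is an invariant line field of `P / Q` supported on the Julia set; it is of absolute value
one on the set `S` of positive measure, and vanishes off `S`. -/
structure LineField (P Q : ℂ[X]) (f : OnePoint ℂ → OnePoint ℂ) (μ : ℂ → ℂ) (S : Set ℂ) : Prop where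
  meas : Measurable μ
  one : ∀ z ∈ S, ‖μ z‖ = 1
  off : ∀ z, z ∉ S → μ z = 0
  pos : 0 < volume S
  sub : S ⊆ julia f
  inv : ∀ᵐ z : ℂ,
    μ (map P Q z) * (starRingEnd ℂ (deriv (map P Q) z) / deriv (map P Q) z) = μ z

/-- The `α`-dimensional Hausdorff content: the infimum of `∑ diam(t i) ^ α` over countable covers. -/
noncomputable def content (α : ℝ) (S : Set ℂ) : ℝ≥0∞ :=
  ⨅ (t : ℕ → Set ℂ) (_ : S ⊆ ⋃ i, t i), ∑' i, ediam (t i) ^ α

/-- A set in the logarithmic coordinate `u = log z`, `|Im u| ≤ π`. -/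
def logSet (S : Set ℂ) : Set ℂ := {u : ℂ | |u.im| ≤ Real.pi ∧ Complex.exp u ∈ S}

/-- The family `a z ^ n R(z)`, `R = P / Q`: its numerator. -/
noncomputable def num (P : ℂ[X]) (n : ℕ) (a : ℂ) : ℂ[X] := C a * X ^ n * P

/-- The free critical points of `a z ^ n P(z) / Q(z)`: the critical points in the plane other than
`0` and the zeros and poles of `P / Q`. -/
def free (P Q : ℂ[X]) (n : ℕ) (a : ℂ) : Set ℂ :=
  {c | c ≠ 0 ∧ P.eval c ≠ 0 ∧ Q.eval c ≠ 0 ∧ deriv (map (num P n a) Q) c = 0}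

/-- The points of the Julia set, and those whose orbits tend neither to `0` nor to `∞`, whose
orbits come only finitely often closer than `δ` to a free critical point. -/
def FewReturns (P Q : ℂ[X]) (n : ℕ) (a : ℂ) (f : OnePoint ℂ → OnePoint ℂ) (δ : ℝ) : Set ℂ :=
  {z | z ∈ julia f ∪ outside f ∧ ∀ᶠ j : ℕ in atTop, ∀ c ∈ free P Q n a,
    δ ≤ ‖(map (num P n a) Q)^[j] z - c‖}

section aux

open Pool.Agent.Q79.HJ
open Pool.Agent.Q79.MN (fam FC Sph Bd)

theorem map_eq (P Q : ℂ[X]) (n : ℕ) (a : ℂ) : map (num P n a) Q = fam P Q n a := by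
  funext z
  unfold map num fam
  rw [eval_mul, eval_mul, eval_C, eval_pow, eval_X, mul_div_assoc]

theorem free_iff {P Q : ℂ[X]} {n : ℕ} (hn : 1 ≤ n) {a : ℂ} (ha : a ≠ 0) (c : ℂ) :
    c ∈ free P Q n a ↔ FC P Q n c := by
  constructor
  · rintro ⟨h1, h2, h3, h4⟩
    refine ⟨h2, h3, ?_⟩
    rw [map_eq, (Pool.Agent.Q79.MN.fam_deriv hn h3).hasDerivAt.deriv, div_eq_zero_iff] at h4
    rcases h4 with h4 | h4
    · exact (mul_eq_zero.1 h4).resolve_left (mul_ne_zero ha (pow_ne_zero _ h1))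
    · exact absurd h4 (pow_ne_zero _ h3)
  · intro h
    refine ⟨h.ne_zero hn, h.1, h.2.1, ?_⟩
    rw [map_eq, (Pool.Agent.Q79.MN.fam_deriv hn h.2.1).hasDerivAt.deriv, h.2.2, mul_zero, zero_div]

/-- all facts on a rational map of the family -/
theorem basic {P Q : ℂ[X]} (hc : IsCoprime P Q) (hP : P.eval 0 ≠ 0) (hQ : Q.eval 0 ≠ 0) {n : ℕ}
    (hn : Q.natDegree + 2 ≤ n) {a : ℂ} (ha : a ≠ 0) {f : OnePoint ℂ → OnePoint ℂ}
    (hf : IsRationalMap (num P n a) Q f) : Sph P Q n a f ∧ Pool.Agent.Q79.DN.Out f = outside f ∧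
      julia f ∪ outside f ⊆ Pool.Agent.Q79.DN.Out f := by
  have hP0 : P ≠ 0 := by rintro rfl; simp at hP
  have hQ0 : Q ≠ 0 := by rintro rfl; simp at hQ
  obtain ⟨m, c₁, hB⟩ := Pool.Agent.Q79.MN.exists_Bd hP hQ
  have hS : Sph P Q n a f := by
    obtain ⟨-, g, hg, hge⟩ := Pool.Agent.Q79.MN.exists_Sph hc hP0 hQ0 hQ (n := n) (by omega) ha
    have : f = g := Pool.Agent.Q79.DN.ext_rat hf.2.2.1 hg.cont hQ0 fun z hz => by
      rw [hge z hz]; exact hf.2.2.2 z hz
    rw [this]; exact hg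
  obtain ⟨h3, h4⟩ := hS.basic hB hn ha
  have hout : Pool.Agent.Q79.DN.Out f = outside f := by
    refine Pool.Agent.Q79.DN.Out_eq ?_ hS.inf h3 h4
    rw [hS.ev 0 hQ]
    congr 1
    unfold Pool.Agent.Q79.MN.fam
    rw [zero_pow (by omega), mul_zero, zero_mul]
  refine ⟨hS, hout, ?_⟩
  rw [← hout, union_subset_iff]
  refine ⟨?_, subset_rfl⟩
  obtain ⟨ρ, hρ, h5⟩ := Pool.Agent.Q79.DN.small hB hn ha
  obtain ⟨R, hR, h6⟩ := Pool.Agent.Q79.DN.large hB hn ha
  intro z hz hTo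
  exact hz (Pool.Agent.Q79.DN.fatou_of_To hf.2.2.1
    (Pool.Agent.Q79.DN.stable_zero hS hρ h5) (Pool.Agent.Q79.DN.stable_infty hS h6) hTo)

theorem few_sub {P Q : ℂ[X]} {n : ℕ} (hn : 1 ≤ n) {a : ℂ} (ha : a ≠ 0)
    {f : OnePoint ℂ → OnePoint ℂ} (hsub : julia f ∪ outside f ⊆ Pool.Agent.Q79.DN.Out f) (κ : ℝ) :
    FewReturns P Q n a f (κ / (n : ℝ) ^ 2) ⊆ EvFar P Q n a f κ := by
  rintro z ⟨hz, hz2⟩
  refine ⟨hsub hz, ?_⟩
  filter_upwards [hz2] with j hj c hc
  have := hj c ((free_iff hn ha c).2 hc)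
  rwa [map_eq] at this

end aux

open Pool.Agent.Q79.HC Pool.Agent.Q79.HJ in
/-- Let `R = P / Q` be a nonconstant rational function with `R(0) ≠ 0, ∞`, `f = a z ^ n R(z)`. -/
theorem result : ∀ P Q : ℂ[X], IsCoprime P Q → P.eval 0 ≠ 0 → Q.eval 0 ≠ 0 →
    0 < P.natDegree + Q.natDegree →
    -- the Julia set meets every ray; the content of dimension one
    (∀ n ≥ Q.natDegree + 2, ∀ a : ℂ, a ≠ 0 → (∃ f, IsRationalMap (num P n a) Q f) ∧
      ∀ f, IsRationalMap (num P n a) Q f →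
      (∀ v : ℂ, ‖v‖ = 1 → ∃ r : ℝ, 0 < r ∧ (r * v : ℂ) ∈ julia f) ∧
      ENNReal.ofReal (2 * Real.pi) ≤ content 1 (logSet (julia f))) ∧
    ∃ L₀ : ℝ, 0 < L₀ ∧ ∀ L ≥ L₀,
      -- the contents of dimension larger than one
      (∀ α : ℝ, 1 < α → α ≤ 2 → ∃ (c C : ℝ) (n₀ : ℕ), 0 < c ∧ ∀ n ≥ n₀,
        (∀ a : ℂ, Real.exp (-(L * n)) ≤ ‖a‖ → ‖a‖ ≤ Real.exp (L * n) →
          ∀ f, IsRationalMap (num P n a) Q f →
          content α (logSet (julia f ∪ outside f)) ≤ ENNReal.ofReal (C / (n : ℝ) ^ (2 * α))) ∧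
        ∃ a : ℂ, Real.exp (-(L * n)) ≤ ‖a‖ ∧ ‖a‖ ≤ Real.exp (L * n) ∧
          ∀ f, IsRationalMap (num P n a) Q f →
          ENNReal.ofReal (c / (n : ℝ) ^ (2 * α)) ≤ content α (logSet (outside f))) ∧
      -- the points without close returns to the free critical points; invariant line fields
      ∃ κ : ℝ, 0 < κ ∧
        (∀ α : ℝ, 1 < α → ∃ n₀ : ℕ, ∀ n ≥ n₀, ∀ a : ℂ, Real.exp (-(L * n)) ≤ ‖a‖ →
          ‖a‖ ≤ Real.exp (L * n) → ∀ f, IsRationalMap (num P n a) Q f →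
          dimH (FewReturns P Q n a f (κ / (n : ℝ) ^ 2)) ≤ ENNReal.ofReal α) ∧
        ∃ n₀ : ℕ, ∀ n ≥ n₀, ∀ a : ℂ, Real.exp (-(L * n)) ≤ ‖a‖ →
          ‖a‖ ≤ Real.exp (L * n) → ∀ f, IsRationalMap (num P n a) Q f →
          ∀ (μ : ℂ → ℂ) (S : Set ℂ), LineField (num P n a) Q f μ S →
          ∀ᵐ z : ℂ, z ∈ S → ∃ᶠ j : ℕ in atTop, ∃ c ∈ free P Q n a,
            ‖(map (num P n a) Q)^[j] z - c‖ < κ / (n : ℝ) ^ 2 := by
  intro P Q hc hP hQ hd
  have hP0 : P ≠ 0 := by rintro rfl; simp at hP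
  have hQ0 : Q ≠ 0 := by rintro rfl; simp at hQ
  have hne : ∀ {L : ℝ} {n : ℕ} {a : ℂ}, Real.exp (-(L * n)) ≤ ‖a‖ → a ≠ 0 := by
    rintro L n a h rfl
    rw [norm_zero] at h
    exact absurd h (not_le.2 (Real.exp_pos _))
  refine ⟨fun n hn a ha => ⟨?_, fun f hf => ?_⟩, ?_⟩
  · obtain ⟨hcop, g, hg, hge⟩ := Pool.Agent.Q79.MN.exists_Sph hc hP0 hQ0 hQ (n := n) (by omega) ha
    exact ⟨g, hcop, hQ0, hg.cont, hge⟩
  · obtain ⟨m, c₁, hB⟩ := Pool.Agent.Q79.MN.exists_Bd hP hQ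
    obtain ⟨hS, -, -⟩ := basic hc hP hQ hn ha hf
    have h1 : ∀ v : ℂ, ‖v‖ = 1 → ∃ r : ℝ, 0 < r ∧ (r * v : ℂ) ∈ julia f := fun v hv =>
      ray hB hn ha hS hv
    exact ⟨h1, one_content h1⟩
  · obtain ⟨L₀, n₁, hL₀, h1⟩ := lowerJ hc hP hQ hd
    refine ⟨L₀, hL₀, fun L hL => ?_⟩
    obtain ⟨κ, hκ, h2⟩ := upperJ hc hP hQ L
    refine ⟨fun α hα1 hα2 => ?_, κ, hκ, fun α hα => ?_, ?_⟩
    · obtain ⟨C, n₂, hC, h3⟩ := h2 α hα1 hα2
      have hα : 0 < α := by linarith
      refine ⟨(1 / (100 * Real.pi)) ^ (α / 2), C, max (Q.natDegree + 2) (max n₁ n₂),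
        Real.rpow_pos_of_pos (by have := Real.pi_pos; positivity) _, fun n hn => ⟨?_, ?_⟩⟩
      · intro a ha1 ha2 f hf
        have ha := hne ha1
        obtain ⟨hS, hout, hsub⟩ := basic hc hP hQ ((le_max_left _ _).trans hn) ha hf
        refine le_trans ?_ (h3 n (((le_max_right _ _).trans (le_max_right _ _)).trans hn) a ha
          ha1 ha2 f hS).1
        have h4 : logSet (julia f ∪ outside f) ⊆
            Pool.Agent.Q79.HJ.logSet (Pool.Agent.Q79.DN.Out f) := fun u hu => ⟨hu.1, hsub hu.2⟩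
        exact measure_mono (μ := Hc α hα) h4
      · obtain ⟨a, ha, ha1, ha2, h4⟩ := h1 n (((le_max_left _ _).trans (le_max_right _ _)).trans hn)
        have hn0 : (0:ℝ) ≤ n := Nat.cast_nonneg n
        have hLn : L₀ * n ≤ L * n := mul_le_mul_of_nonneg_right hL hn0
        refine ⟨a, le_trans (Real.exp_le_exp.2 (by linarith)) ha1,
          ha2.trans (Real.exp_le_exp.2 hLn), fun f hf => ?_⟩
        obtain ⟨hS, hout, hsub⟩ := basic hc hP hQ ((le_max_left _ _).trans hn) ha hf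
        rw [← hout]
        exact h4 f hS α hα hα2
    · obtain ⟨C, n₂, hC, h3⟩ := h2 (min α 2) (lt_min hα (by norm_num)) (min_le_right _ _)
      refine ⟨max (Q.natDegree + 2) n₂, fun n hn a ha1 ha2 f hf => ?_⟩
      have ha := hne ha1
      have hn2 : Q.natDegree + 2 ≤ n := (le_max_left _ _).trans hn
      obtain ⟨hS, hout, hsub⟩ := basic hc hP hQ hn2 ha hf
      calc dimH (FewReturns P Q n a f (κ / (n : ℝ) ^ 2)) ≤ dimH (EvFar P Q n a f κ) :=
            dimH_mono (few_sub (by omega) ha hsub κ)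
        _ ≤ ENNReal.ofReal (min α 2) := (h3 n ((le_max_right _ _).trans hn) a ha ha1 ha2 f hS).2
        _ ≤ _ := ENNReal.ofReal_le_ofReal (min_le_left _ _)
    · obtain ⟨C, n₂, hC, h3⟩ := h2 (3 / 2) (by norm_num) (by norm_num)
      refine ⟨max (Q.natDegree + 2) n₂, fun n hn a ha1 ha2 f hf μ S hμ => ?_⟩
      have ha := hne ha1
      have hn2 : Q.natDegree + 2 ≤ n := (le_max_left _ _).trans hn
      obtain ⟨hS, hout, hsub⟩ := basic hc hP hQ hn2 ha hf
      have h4 : dimH (FewReturns P Q n a f (κ / (n : ℝ) ^ 2)) ≤ ENNReal.ofReal (3 / 2) :=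
        (dimH_mono (few_sub (by omega) ha hsub κ)).trans
          (h3 n ((le_max_right _ _).trans hn) a ha ha1 ha2 f hS).2
      have h5 := vol_zero (by norm_num) h4
      have h6 : ∀ᵐ z : ℂ, z ∉ FewReturns P Q n a f (κ / (n : ℝ) ^ 2) := by
        rw [ae_iff]
        simpa using h5
      filter_upwards [h6] with z hz hzS
      by_contra hcon
      apply hz
      refine ⟨Or.inl (hμ.sub hzS), ?_⟩
      rw [not_frequently] at hcon
      filter_upwards [hcon] with j hj c hcF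
      by_contra hcon2
      exact hj ⟨c, hcF, not_le.1 hcon2⟩

end Pool.Agent.Results.MP_70a088_an.JuliaContents
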