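import Mathlib
import Pool.Agent.Q79.DynD

/-!
# Areas of the Julia sets and supports of invariant line fields in the families `a z ^ n R(z)`

Let `R` be a fixed nonconstant rational function, `R(0) ≠ 0, ∞`. For all large `n` and EVERY `a ≠ 0`
the points whose orbits under `f = a z ^ n R(z)` converge neither to `0` nor to `∞`, together with
the Julia set, form a set of logarithmic area at most `K n ^ (-4)`; so every invariant line field on
the Julia set lives on a set of logarithmic area at most `K n ^ (-4)`. Nothing is assumed about the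
orbits of the critical points. If `|a|` is not between `exp (-L n)` and `exp (L n)` these sets have
area zero, and there is no invariant line field. The order `n ^ (-4)` is attained, for every large
`n`, by the set of the points whose orbits converge neither to `0` nor to `∞`.
-/

set_option autoImplicit false

open Set Filter Topology MeasureTheory Polynomial

namespace Pool.Agent.Results.MP_70a088_an.MonomialFamilyAreas

/-- The rational function `P / Q` of the plane. -/
noncomputable def map (P Q : ℂ[X]) : ℂ → ℂ := fun z => P.eval z / Q.eval z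

/-- `f` is the rational map `P / Q` of the Riemann sphere, in lowest terms. -/
def IsRationalMap (P Q : ℂ[X]) (f : OnePoint ℂ → OnePoint ℂ) : Prop :=
  IsCoprime P Q ∧ Q ≠ 0 ∧ Continuous f ∧
    ∀ z : ℂ, Q.eval z ≠ 0 → f (OnePoint.some z) = OnePoint.some (P.eval z / Q.eval z)

/-- The Fatou set: the points with a neighbourhood on which the iterates are equicontinuous (the
neighbourhoods `W` of the diagonal are the entourages of the uniform structure of the sphere). -/
def fatou (f : OnePoint ℂ → OnePoint ℂ) : Set (OnePoint ℂ) :=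
  {x | ∃ U ∈ 𝓝 x, ∀ y ∈ U, ∀ W ∈ 𝓝ˢ (Set.diagonal (OnePoint ℂ)),
    ∀ᶠ z in 𝓝 y, ∀ n : ℕ, (f^[n] y, f^[n] z) ∈ W}

/-- The finite points of the Julia set. -/
def julia (f : OnePoint ℂ → OnePoint ℂ) : Set ℂ := {z : ℂ | OnePoint.some z ∉ fatou f}

/-- The finite points whose orbits converge neither to `0` nor to `∞`. -/
def outside (f : OnePoint ℂ → OnePoint ℂ) : Set ℂ :=
  {z : ℂ | ¬ Tendsto (fun n : ℕ => f^[n] (OnePoint.some z)) atTop (𝓝 (OnePoint.some 0)) ∧
    ¬ Tendsto (fun n : ℕ => f^[n] (OnePoint.some z)) atTop (𝓝 OnePoint.infty)}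

/-- `μ` is an invariant line field of `P / Q` supported on the Julia set; it is of absolute value
one on the set `S` of positive measure, and vanishes off `S`. -/
structure LineField (P Q : ℂ[X]) (f : OnePoint ℂ → OnePoint ℂ) (μ : ℂ → ℂ) (S : Set ℂ) : Prop where
  meas : Measurable μ
  one : ∀ z ∈ S, ‖μ z‖ = 1
  off : ∀ z, z ∉ S → μ z = 0
  pos : 0 < volume S
  sub : S ⊆ julia f
  inv : ∀ᵐ z : ℂ,
    μ (map P Q z) * (starRingEnd ℂ (deriv (map P Q) z) / deriv (map P Q) z) = μ z

/-- Logarithmic area: the measure `dA(w) / |w| ^ 2` on the plane. It is invariant under all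
multiplications `w ↦ b * w`, and the logarithmic area of the annulus `r ≤ |w| ≤ R` is
`2 π log (R / r)`. -/
noncomputable def logArea : Measure ℂ :=
  (volume : Measure ℂ).withDensity (fun w => ENNReal.ofReal ((‖w‖ ^ 2)⁻¹))

/-- Let `R = P / Q` be a nonconstant rational function with `R(0) ≠ 0, ∞`. There are `K, L` such
that for all large `n`: (1) for every `a ≠ 0` the map `a z ^ n R(z)` extends to the sphere, the
Julia set together with the set of the points whose orbits converge neither to `0` nor to `∞` has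
logarithmic area at most `K n ^ (-4)`, and so has the support of every invariant line field; if
`|a| < exp (-L n)` or `|a| > exp (L n)` the area is zero, and there is no invariant line field;
(2) for some `a ≠ 0` the points whose orbits converge neither to `0` nor to `∞` have logarithmic
area at least `n ^ (-4) / 100`. -/
theorem result : ∀ P Q : ℂ[X], IsCoprime P Q → P.eval 0 ≠ 0 → Q.eval 0 ≠ 0 →
    0 < P.natDegree + Q.natDegree →
    ∃ (K L : ℝ) (n₀ : ℕ), 0 < K ∧ 0 < L ∧ ∀ n : ℕ, n₀ ≤ n →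
      (∀ a : ℂ, a ≠ 0 → (∃ f, IsRationalMap (C a * X ^ n * P) Q f) ∧
        ∀ f, IsRationalMap (C a * X ^ n * P) Q f →
          logArea (julia f ∪ outside f) ≤ ENNReal.ofReal (K / (n : ℝ) ^ 4) ∧
          (∀ (μ : ℂ → ℂ) (S : Set ℂ), LineField (C a * X ^ n * P) Q f μ S →
            logArea S ≤ ENNReal.ofReal (K / (n : ℝ) ^ 4)) ∧
          ((‖a‖ < Real.exp (-(L * n)) ∨ Real.exp (L * n) < ‖a‖) →
            logArea (julia f ∪ outside f) = 0 ∧
            ¬ ∃ (μ : ℂ → ℂ) (S : Set ℂ), LineField (C a * X ^ n * P) Q f μ S)) ∧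
      ∃ a : ℂ, a ≠ 0 ∧ ∀ f, IsRationalMap (C a * X ^ n * P) Q f →
        ENNReal.ofReal (1 / 100 / (n : ℝ) ^ 4) ≤ logArea (outside f) := by
  intro P Q hc hP hQ hd
  have hP0 : P ≠ 0 := by rintro rfl; simp at hP
  have hQ0 : Q ≠ 0 := by rintro rfl; simp at hQ
  obtain ⟨m, c₁, hB⟩ := Pool.Agent.Q79.MN.exists_Bd hP hQ
  obtain ⟨K, L, n₁, hK, hL, h1⟩ := Pool.Agent.Q79.DN.upper hc hP hQ
  obtain ⟨n₂, h2⟩ := Pool.Agent.Q79.DN.lower hc hP hQ hd
  refine ⟨K, L, max (Q.natDegree + 2) (max n₁ n₂), hK, hL, fun n hn => ?_⟩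
  have hn2 : Q.natDegree + 2 ≤ n := (le_max_left _ _).trans hn
  have hnn1 : n₁ ≤ n := ((le_max_left _ _).trans (le_max_right _ _)).trans hn
  have hnn2 : n₂ ≤ n := ((le_max_right _ _).trans (le_max_right _ _)).trans hn
  -- the map of the sphere
  have hmap : ∀ a : ℂ, a ≠ 0 → ∀ f, IsRationalMap (C a * X ^ n * P) Q f →
      Pool.Agent.Q79.MN.Sph P Q n a f := by
    intro a ha f hf
    obtain ⟨-, g, hg, hge⟩ := Pool.Agent.Q79.MN.exists_Sph hc hP0 hQ0 hQ (n := n) (by omega) ha
    have : f = g := Pool.Agent.Q79.DN.ext_rat hf.2.2.1 hg.cont hQ0 fun z hz => by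
      rw [hge z hz]; exact hf.2.2.2 z hz
    rw [this]; exact hg
  have hout : ∀ a : ℂ, a ≠ 0 → ∀ f, IsRationalMap (C a * X ^ n * P) Q f →
      Pool.Agent.Q79.DN.Out f = outside f := by
    intro a ha f hf
    have hS := hmap a ha f hf
    obtain ⟨h3, h4⟩ := hS.basic hB hn2 ha
    refine Pool.Agent.Q79.DN.Out_eq ?_ hS.inf h3 h4
    rw [hS.ev 0 hQ]
    congr 1
    unfold Pool.Agent.Q79.MN.fam
    rw [zero_pow (by omega), mul_zero, zero_mul]
  have hsub : ∀ a : ℂ, a ≠ 0 → ∀ f, IsRationalMap (C a * X ^ n * P) Q f →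
      julia f ∪ outside f ⊆ Pool.Agent.Q79.DN.Out f := by
    intro a ha f hf
    rw [← hout a ha f hf, union_subset_iff]
    refine ⟨?_, subset_rfl⟩
    have hS := hmap a ha f hf
    obtain ⟨ρ, hρ, h3⟩ := Pool.Agent.Q79.DN.small hB hn2 ha
    obtain ⟨R, hR, h4⟩ := Pool.Agent.Q79.DN.large hB hn2 ha
    intro z hz hTo
    exact hz (Pool.Agent.Q79.DN.fatou_of_To hf.2.2.1
      (Pool.Agent.Q79.DN.stable_zero hS hρ h3) (Pool.Agent.Q79.DN.stable_infty hS h4) hTo)
  refine ⟨fun a ha => ⟨?_, fun f hf => ?_⟩, ?_⟩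
  · obtain ⟨hcop, g, hg, hge⟩ := Pool.Agent.Q79.MN.exists_Sph hc hP0 hQ0 hQ (n := n) (by omega) ha
    exact ⟨g, hcop, hQ0, hg.cont, hge⟩
  · obtain ⟨-, h3, h4⟩ := h1 n hnn1 a ha f (hmap a ha f hf)
    have h5 := measure_mono (μ := Pool.Agent.Q79.MN.logArea) (hsub a ha f hf)
    refine ⟨h5.trans h3, fun μ S hS => ?_, fun hext => ?_⟩
    · exact (measure_mono (hS.sub.trans subset_union_left)).trans (h5.trans h3)
    · have h6 := h4 hext
      have h7 : logArea (julia f ∪ outside f) = 0 := le_antisymm (h5.trans h6.le) zero_le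
      refine ⟨h7, ?_⟩
      rintro ⟨μ, S, hS⟩
      have h8 : logArea S = 0 :=
        le_antisymm ((measure_mono (hS.sub.trans subset_union_left)).trans h7.le) zero_le
      exact hS.pos.ne' (Pool.Agent.Q79.DN.vol_of_logArea h8)
  · obtain ⟨a, ha, h3⟩ := h2 n hnn2
    refine ⟨a, ha, fun f hf => ?_⟩
    rw [← hout a ha f hf]
    exact h3 f (hmap a ha f hf)

end Pool.Agent.Results.MP_70a088_an.MonomialFamilyAreas
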