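import Pool.Agent.Q275.NR.MAIN
import Pool.Agent.Q241.NR.BIG
import Pool.Agent.Q241.NR.Y
import Pool.Agent.Q241.NR.LVL
import Pool.Agent.Q241.NR.LOGB
import Pool.Agent.Q224.NR.ALL
import Pool.Agent.Q224.NR.RB
import Pool.Agent.Q224.NR.GT
import Pool.Agent.Q224.NR.EXIT
import Pool.Agent.Q130.NR.SHAD
import Pool.Agent.Q130.NR.GTA
import Pool.Agent.Q130.NR.GTB
import Pool.Agent.Q150.NR.LIM
import Pool.Agent.Q150.NR.YB
import Pool.Agent.Q151.NR.Spin
import Pool.Agent.Q151.NR.Spi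
import Pool.Agent.Q121.NR.C2
import Pool.Agent.Q121.NR.C3
import Pool.Agent.Q121.NR.CNT
import Pool.Agent.Q121.NR.ETA
import Pool.Agent.Q121.NR.PER
import Pool.Agent.Q124.NR.IBD
import Pool.Agent.Q124.NR.IBU
import Pool.Agent.Q124.NR.INN
import Pool.Agent.Q124.NR.UNI
import Pool.Agent.Q125.NR.FE
import Pool.Agent.Q162.NR.F1
import Pool.Agent.Q162.NR.FLD
import Pool.Agent.Q162.NR.HOL
import Pool.Agent.Q162.NR.IBN
import Pool.Agent.Q162.NR.Null
import Pool.Agent.Q212.NR.KLIN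
import Pool.Agent.Q22.NR.EXPT
import Pool.Agent.Q22.NR.TR
import Pool.Agent.Q22.NR.YA
import Pool.Agent.Q22.NR.START
import Pool.Agent.Q237.NR.EXPD
import Pool.Agent.Q237.NR.MON
import Pool.Agent.Q237.NR.REP
import Pool.Agent.Q65.NR.IBK
import Pool.Agent.Q184.NR.SING
import Pool.Agent.Q68.NR.TRL

/-!
MP_70a088_an, the no invariant line fields conjecture: exponential maps `z ↦ e ^ z + c` whose
singular value `c` lies in the Julia set and is not recurrent.

Lemma jobs of the project NR (helper75): co-authors helper22, helper65, helper68, helper121,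
helper124, helper125, helper130, helper150, helper151, helper162, helper184, helper212, helper224,
helper237, helper241, helper275.
-/

set_option autoImplicit false

open Filter Topology Metric Set MeasureTheory

namespace Pool.Agent.Results.MP_70a088_an.NonrecurrentExponential

open Pool.Agent.Q75.XF Pool.Agent.Q75.NR

/-- If the singular value `c` of `z ↦ e ^ z + c` lies in the Julia set and its orbit keeps a positive
distance from `c`, then there is no invariant line field supported on the Julia set. -/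
theorem result (c : ℂ) (hc : c ∈ julia (E c)) (δ : ℝ) (hδ : 0 < δ)
    (h : ∀ n : ℕ, 1 ≤ n → δ ≤ ‖(E c)^[n] c - c‖) :
    ¬ ∃ (μ : ℂ → ℂ) (S : Set ℂ), LineField (E c) μ S := by
  have INN := Pool.Agent.Q124.NR.t_INN
  have IBK := Pool.Agent.Q65.NR.t_IBK INN
  have IBD := Pool.Agent.Q124.NR.t_IBD
  have IBU := Pool.Agent.Q124.NR.t_IBU
  have LOGB := Pool.Agent.Q241.NR.t_LOGB
  have UNI := Pool.Agent.Q124.NR.t_UNI IBD IBU IBK
  have MON := Pool.Agent.Q237.NR.t_MON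
  have EXPD := Pool.Agent.Q237.NR.t_EXPD Pool.Agent.Q237.NR.t_REP MON
  have SING := Pool.Agent.Q184.NR.t_SING UNI IBK EXPD
  have NUL := Pool.Agent.Q162.NR.t_NUL
  have IBN := Pool.Agent.Q162.NR.t_IBN NUL IBK
  have HOL := Pool.Agent.Q162.NR.t_HOL NUL LOGB IBN
  have ETA := Pool.Agent.Q121.NR.t_ETA NUL HOL
  have F1 := Pool.Agent.Q162.NR.t_F1 HOL ETA Pool.Agent.Q125.NR.t_FE MON
  have LIM := Pool.Agent.Q150.NR.t_LIM
  have C2 := Pool.Agent.Q121.NR.t_C2 LIM Pool.Agent.Q68.NR.t_TRL F1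
  have SPI := Pool.Agent.Q151.NR.t_SPI
  have C3 := Pool.Agent.Q121.NR.t_C3 LIM Pool.Agent.Q121.NR.t_PER Pool.Agent.Q121.NR.t_CNT
  have C4 := Pool.Agent.Q151.NR.t_C4 SPI
  have TR := Pool.Agent.Q22.NR.t_TR IBN IBK
  have EXPT := Pool.Agent.Q22.NR.t_EXPT TR LOGB
  have LVL := Pool.Agent.Q241.NR.t_LVL INN IBK
  have YA := Pool.Agent.Q22.NR.t_YA SPI TR IBK
  have YB := Pool.Agent.Q150.NR.t_YB SPI IBN IBK LOGB Pool.Agent.Q212.NR.t_KLIN
  have Y := Pool.Agent.Q241.NR.t_Y LVL YA YB EXPT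
  have BIG := Pool.Agent.Q241.NR.t_BIG C2 Pool.Agent.Q151.NR.t_SPIN C3 C4 Y
  have RB := Pool.Agent.Q224.NR.t_RB EXPT
  have LFA := Pool.Agent.Q22.NR.t_LFA TR LOGB IBK
  have ALL := Pool.Agent.Q224.NR.t_ALL LVL LFA EXPT
  have SHAD := Pool.Agent.Q130.NR.shad IBU LOGB IBK
  have EXIT := Pool.Agent.Q224.NR.t_EXIT SHAD LOGB IBK
  have GTA := Pool.Agent.Q130.NR.gta IBD IBU
  have GTB := Pool.Agent.Q130.NR.gtb IBD IBU IBK
  have GT := Pool.Agent.Q224.NR.t_GT EXIT GTA GTB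
  have START := Pool.Agent.Q22.NR.t_START EXPD IBK IBN
  have FLD := Pool.Agent.Q162.NR.t_FLD NUL
  exact Pool.Agent.Q275.NR.t_MAIN SING FLD C2 BIG RB ALL GT START c δ hδ h hc

end Pool.Agent.Results.MP_70a088_an.NonrecurrentExponential
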